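import Pool.Agent.helper56.NR.Spec

/-! Project nr:, module WIN (window lemma). -/

set_option autoImplicit false

open Complex Metric Set Filter Topology MeasureTheory Pool.Agent.helper98.ILF

open EX (ff)

noncomputable section

namespace NR

theorem WIN : WIN_stmt := by
  intro a K l β ha hpos hQ τ p m hmK hτ hsl hL hsum
  have hapos : 0 < a := by linarith
  obtain ⟨hlm, hβm⟩ := hpos m hmK
  -- p < m
  have hpm : p < m := by
    by_contra h
    have h1 : Finset.Ico p m = ∅ := Finset.Ico_eq_empty h
    rw [h1, Finset.sum_empty] at hsum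
    linarith
  -- nonnegativity of the sum over any set of indices below m
  have hnn : ∀ j, j < m → 0 ≤ l j := fun j hj => (hpos j (by omega)).1.le
  -- the smallest index
  have hex : ∃ k, p ≤ k ∧ ∑ j ∈ Finset.Ioo k m, l j ≤ l m / 2 := by
    refine ⟨m - 1, by omega, ?_⟩
    have h1 : Finset.Ioo (m - 1) m = ∅ := by
      ext j
      simp only [Finset.mem_Ioo, Finset.notMem_empty, iff_false]
      omega
    rw [h1, Finset.sum_empty]
    linarith
  obtain ⟨m0, hm0, hmin⟩ : ∃ m0, (p ≤ m0 ∧ ∑ j ∈ Finset.Ioo m0 m, l j ≤ l m / 2) ∧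
      ∀ k < m0, ¬ (p ≤ k ∧ ∑ j ∈ Finset.Ioo k m, l j ≤ l m / 2) := by
    classical
    exact ⟨Nat.find hex, Nat.find_spec hex, fun k hk => Nat.find_min hex hk⟩
  have hm0m : m0 < m := by
    by_contra h
    refine hmin (m - 1) (by omega) ⟨by omega, ?_⟩
    have h1 : Finset.Ioo (m - 1) m = ∅ := by
      ext j
      simp only [Finset.mem_Ioo, Finset.notMem_empty, iff_false]
      omega
    rw [h1, Finset.sum_empty]
    linarith
  have hbig : l m / 2 < ∑ j ∈ Finset.Ico m0 m, l j := by
    rcases Nat.eq_or_lt_of_le hm0.1 with h | h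
    · rw [← h]; exact hsum
    · have h1 := hmin (m0 - 1) (by omega)
      have h2 : Finset.Ioo (m0 - 1) m = Finset.Ico m0 m := by
        ext j
        simp only [Finset.mem_Ioo, Finset.mem_Ico]
        omega
      rw [h2] at h1
      by_contra h3
      exact h1 ⟨by omega, not_lt.1 h3⟩
  obtain ⟨hl0, hβ0⟩ := hpos m0 (by omega)
  rcases le_or_gt (l m / 4) (l m0) with hc | hc
  · -- case 1
    have hq := hQ m0 m hm0m hmK hm0.2
    have h1 : l m / (4 * l m0) ≤ min 1 (l m / l m0) := by
      refine le_min ?_ ?_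
      · rw [div_le_one (by positivity)]
        linarith
      · exact div_le_div_of_nonneg_left hlm.le hl0 (by linarith)
    have h2 : a * (l m / (4 * l m0)) * β m0 ≤ β m := by
      refine le_trans ?_ hq
      exact mul_le_mul_of_nonneg_right (mul_le_mul_of_nonneg_left h1 hapos.le) hβ0.le
    have h3 : l m0 ≤ τ * β m0 := hsl m0 hm0.1 hm0m
    have h4 : 8 * τ / a * (a * (l m / (4 * l m0)) * β m0) ≤ 8 * τ / a * β m :=
      mul_le_mul_of_nonneg_left h2 (by positivity)
    have h5 : 8 * τ / a * (a * (l m / (4 * l m0)) * β m0) = 2 * l m * (τ * β m0 / l m0) := by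
      field_simp
      ring
    rw [h5] at h4
    have h6 : 1 ≤ τ * β m0 / l m0 := by
      rw [le_div_iff₀ hl0]
      linarith
    nlinarith
  · -- case 2
    have hIco : ∑ j ∈ Finset.Ico m0 m, l j = l m0 + ∑ j ∈ Finset.Ioo m0 m, l j := by
      rw [← Finset.sum_insert (s := Finset.Ioo m0 m) (a := m0) (f := l) (by simp)]
      congr 1
      ext j
      simp only [Finset.mem_Ico, Finset.mem_insert, Finset.mem_Ioo]
      omega
    have hIoo : l m / 4 < ∑ j ∈ Finset.Ioo m0 m, l j := by
      rw [hIco] at hbig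
      linarith
    have hIcc : Finset.Ioo m0 m = Finset.Icc (m0 + 1) (m - 1) := by
      ext j
      simp only [Finset.mem_Icc, Finset.mem_Ioo]
      omega
    have hne : (Finset.Ioo m0 m).Nonempty := by
      by_contra h
      rw [Finset.not_nonempty_iff_eq_empty] at h
      rw [h, Finset.sum_empty] at hIoo
      linarith
    obtain ⟨j, hj, hjmax⟩ := Finset.exists_max_image (Finset.Ioo m0 m) β hne
    have hj' := Finset.mem_Ioo.1 hj
    obtain ⟨hlj, hβj⟩ := hpos j (by omega)
    have h1 := hL (m0 + 1) (m - 1) (β j) (by omega) (by omega) hβj.le (fun i hi => by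
      rw [← hIcc] at hi
      exact hjmax i hi)
    rw [← hIcc] at h1
    have h2 : ∑ i ∈ Finset.Ioo j m, l i ≤ ∑ i ∈ Finset.Ioo m0 m, l i := by
      refine Finset.sum_le_sum_of_subset_of_nonneg ?_ ?_
      · intro i hi
        rw [Finset.mem_Ioo] at hi ⊢
        omega
      · intro i hi _
        exact hnn i (Finset.mem_Ioo.1 hi).2
    have h3 : l j ≤ ∑ i ∈ Finset.Ioo m0 m, l i :=
      Finset.single_le_sum (f := l) (fun i hi => hnn i (Finset.mem_Ioo.1 hi).2) hj
    have hq := hQ j m hj'.2 hmK (h2.trans hm0.2)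
    have h4 : min 1 (l m / l j) = 1 := by
      refine min_eq_left ?_
      rw [le_div_iff₀ hlj]
      have := hm0.2
      linarith
    rw [h4, mul_one] at hq
    have h5 : 8 * τ / a * (a * β j) ≤ 8 * τ / a * β m :=
      mul_le_mul_of_nonneg_left hq (by positivity)
    have h6 : 8 * τ / a * (a * β j) = 8 * τ * β j := by
      field_simp
    rw [h6] at h5
    linarith

end NR
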